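import Pool.Agent.MP_f6c0e6_an.All.Main

set_option autoImplicit false

open MeasureTheory Filter Topology Set Metric Asymptotics
open Pool.Agent.MP_f6c0e6_an.Spec

namespace Pool.Agent.Results.MP_f6c0e6_an.Full

theorem result (m n : ℕ) (U : Set (EuclideanSpace ℝ (Fin (m + n)))) (hU : IsOpen U)
    (μ : Measure (EuclideanSpace ℝ (Fin (m + n))))
    (hV : IsIntegralVarifold m U μ) (hS : IsStationary m U μ)
    (x₀ : EuclideanSpace ℝ (Fin (m + n))) (hx : x₀ ∈ U) (hsupp : x₀ ∈ μ.support)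
    (hH : HypH m μ x₀) :
    ∃ s > 0, IsMinimalGraphNear m x₀ (μ.support ∩ ball x₀ s) ∧
      ∀ k : ℕ, (fun r : ℝ => ∫ x in ball x₀ r, infDist x (μ.support ∩ ball x₀ s) ^ 2 ∂μ)
        =o[𝓝[>] 0] fun r : ℝ => r ^ k := by
  obtain ⟨s, hs, h1⟩ := Pool.Agent.MP_f6c0e6_an.Gen.regular_main hU hV hS hx hsupp hH
  refine ⟨s, hs, h1, fun k => ?_⟩
  refine (isLittleO_zero _ _).congr' ?_ EventuallyEq.rfl
  filter_upwards [Ioo_mem_nhdsGT hs] with r hr
  symm
  refine setIntegral_eq_zero_of_ae_eq_zero ?_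
  filter_upwards [μ.support_mem_ae] with x hx hxs
  rw [infDist_zero_of_mem (mem_inter hx (ball_subset_ball hr.2.le hxs))]
  simp

end Pool.Agent.Results.MP_f6c0e6_an.Full
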