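import Pool.Agent.MP_f6c0e6_an.All.Main

set_option autoImplicit false

open MeasureTheory Filter Topology Set Metric
open Pool.Agent.MP_f6c0e6_an.Spec

namespace Pool.Agent.Results.MP_f6c0e6_an.SingularSetNullAll

theorem result (m n : ℕ) (U : Set (EuclideanSpace ℝ (Fin (m + n)))) (hU : IsOpen U)
    (μ : Measure (EuclideanSpace ℝ (Fin (m + n))))
    (hV : IsIntegralVarifold m U μ) (hS : IsStationary m U μ) :
    Measure.euclideanHausdorffMeasure m {x | x ∈ U ∧ x ∈ μ.support ∧
      ¬∃ s > 0, IsMinimalGraphNear m x (μ.support ∩ ball x s)} = 0 :=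
  Pool.Agent.MP_f6c0e6_an.Gen.ae_regular_main hU hV hS

end Pool.Agent.Results.MP_f6c0e6_an.SingularSetNullAll
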